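import Pool.Agent.H1Tv.Main

/-!
# MP_a73a08_co: every finite simplicial complex is `d`-Tverberg for all large `d`

The definitions used in the statement, `IsComplex`, `PartitionInduced`, `IsTverberg` and
`GeneralPosition`, are in `Pool.Agent.H1Tv.Main` and `Pool.Agent.H1Tv.Clusters`.

Sketch of the proof. Let `F_0, ..., F_d` be faces of `K` covering all facets. By Ramsey's theorem
a large point set in general position in `ℝ^d` contains `d + 1` groups of many points and affine
functions `h_0, ..., h_d` such that on the `j`-th group `h_j` is positive and all the other `h_i`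
lie in `[0, ε h_j]`. Put `x_v = ∑ h_j`, the sum over the `j` with `v ∈ F_j`, slightly perturbed. A
point `s` of the `j`-th group may be put in any class `v ∈ F_j`, every other point `s` is put in
the class `v` with the largest `x_v(s)`. Then every class `v` lies in the open half-space where
`x_v` exceeds the average of the `x_u`, `u ∈ F`, for every nonface `F` containing `v`, so the hulls
of the classes of a nonface have no common point; and by a weak form of Tverberg's theorem the
points of the `j`-th group can be distributed so that the hulls of the classes `v ∈ F_j` have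
a common point.
-/

namespace Pool.Agent.Results.MP_a73a08_co.TverbergComplexes

open Pool.Agent.H1Tv

/-- The facets (inclusion-maximal faces) of `K`. -/
def facets {V : Type} (K : Set (Finset V)) : Set (Finset V) :=
  {F | F ∈ K ∧ ∀ G ∈ K, F ⊆ G → F = G}

/-- Every finite abstract simplicial complex `K` with at least one vertex is `d`-Tverberg for all
`d ≥ d₀`, where `d₀ ≥ 1` is at most the maximum of `1` and the number of facets minus one. -/
theorem result (V : Type) [Fintype V] [Nonempty V] (K : Set (Finset V)) (hK : IsComplex K) :
    ∃ d₀ : ℕ, 1 ≤ d₀ ∧ d₀ ≤ max 1 ((facets K).ncard - 1) ∧ ∀ d : ℕ, d₀ ≤ d → IsTverberg K d := by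
  classical
  refine ⟨max 1 ((facets K).ncard - 1), le_max_left _ _, le_rfl, ?_⟩
  intro d hd
  have hfin : (facets K).Finite := Set.toFinite _
  set A : Finset (Finset V) := hfin.toFinset with hA
  have hAc : A.card = (facets K).ncard := by
    rw [Set.ncard_eq_toFinset_card (facets K) hfin]
  have hAd : A.card ≤ d + 1 := by
    rw [hAc]
    have := le_max_right 1 ((facets K).ncard - 1)
    omega
  have hempty : (∅ : Finset V) ∈ K :=
    hK.down_closed ∅ {Classical.arbitrary V} (Finset.empty_subset _) (hK.singleton_mem _)
  have hAmem : ∀ F, F ∈ A ↔ F ∈ facets K := by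
    intro F; rw [hA, Set.Finite.mem_toFinset]
  refine core K hK d (fun j => if h : j < A.card then ((A.equivFin.symm ⟨j, h⟩ : A) : Finset V)
    else ∅) ?_ ?_
  · intro j _
    split_ifs with h
    · exact ((hAmem _).1 (A.equivFin.symm ⟨j, h⟩).2).1
    · exact hempty
  · intro F hF
    obtain ⟨G, hFG, hG⟩ := (Set.toFinite K).exists_le_maximal hF
    have hGA : G ∈ A := by
      rw [hAmem]
      refine ⟨hG.prop, fun G' hG' hGG' => ?_⟩
      exact le_antisymm hGG' (hG.2 hG' hGG')
    refine ⟨(A.equivFin ⟨G, hGA⟩ : ℕ), ?_, ?_⟩
    · have := (A.equivFin ⟨G, hGA⟩).2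
      omega
    · have h1 := (A.equivFin ⟨G, hGA⟩).2
      simp only [h1, dif_pos, Fin.eta, Equiv.symm_apply_apply]
      exact hFG

end Pool.Agent.Results.MP_a73a08_co.TverbergComplexes
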